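import Pool.Agent.H.MP_bf7e1e.D

set_option autoImplicit false

open Set Filter Topology TopologicalSpace

namespace Pool.Agent.Results.MP_bf7e1e_gt.Counter

/-- covering dimension at most `n`, defined through finite cozero covers -/
def DimLE (X : Type) [TopologicalSpace X] (n : ℕ) : Prop :=
  ∀ (ι : Type) [Finite ι] (U : ι → Set X), (∀ i, ∃ f : C(X, ℝ), U i = {x | f x ≠ 0}) →
    (⋃ i, U i) = univ → ∃ (κ : Type) (_ : Finite κ) (V : κ → Set X),
      (∀ k, ∃ f : C(X, ℝ), V k = {x | f x ≠ 0}) ∧ (⋃ k, V k) = univ ∧ (∀ k, ∃ i, V k ⊆ U i) ∧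
      ∀ x, Nat.card {k // x ∈ V k} ≤ n + 1

open Pool.Agent.H.MP_bf7e1e in
theorem result : ∃ (X Y : Type) (_ : TopologicalSpace X) (_ : TopologicalSpace Y),
    T35Space X ∧ T35Space Y ∧ CountablyCompactSpace X ∧ Nonempty X ∧ Nonempty Y ∧
    DimLE X 0 ∧ DimLE Y 0 ∧ ¬ DimLE (X × Y) 0 := by
  have op : ∀ {X : Type} [TopologicalSpace X] {U : Set X},
      (∃ f : C(X, ℝ), U = {x | f x ≠ 0}) → IsOpen U := by
    rintro X _ _ ⟨f, rfl⟩
    exact isOpen_ne_fun f.continuous continuous_const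
  obtain ⟨rk, h, h'⟩ := exists_rk
  obtain ⟨t, -, t2⟩ := h ⊥ 0 1 one_pos
  have ne : Nonempty (Y rk) :=
    ⟨⟨fun _ => t, continuous_const, monotone_const, fun _ => t2 ▸ bot_le⟩⟩
  refine ⟨Om, Y rk, inferInstance, inferInstance, inferInstance, inferInstance, inferInstance,
    ⟨⊥⟩, ne, fun ι _ U u1 u2 => ?_, fun ι _ U u1 u2 => ?_, fun H => ?_⟩
  · obtain ⟨J, _, B, b1, b2, b3⟩ := Om_cover U (fun i => op (u1 i)) u2
    exact dim0 U B b1 b2 b3
  · choose k hk using fun x => mem_iUnion.1 (u2.ge (mem_univ x))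
    choose V v1 v2 v3 using fun x => Y_base h ((op (u1 _)).mem_nhds (hk x))
    obtain ⟨s, s1, s2⟩ := lind V fun y => ⟨y, (v1 y).2.mem_nhds (v2 y)⟩
    have := s1.to_subtype
    exact dim0 U (fun j : s => V j) (fun j => v1 j)
      (fun x => (s2 x).elim fun i h => ⟨⟨i, h.1⟩, h.2⟩) fun j => ⟨_, v3 j⟩
  · obtain ⟨κ, _, V, v1, v2, v3, v4⟩ := H Bool
      (fun b => bif b then {z | z.2.1 z.1 < 1} else {z | 0 < z.2.1 z.1}) (fun b => by
        cases b
        · exact ⟨⟨fun z => max (z.2.1 z.1) 0, ev.max continuous_const⟩, by ext; simp⟩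
        · exact ⟨⟨fun z => max (1 - z.2.1 z.1) 0, (continuous_const.sub ev).max continuous_const⟩,
            by ext; simp⟩)
      (eq_univ_of_forall fun z => by
        rcases lt_or_ge (z.2.1 z.1) 1 with e | e
        exacts [mem_iUnion.2 ⟨true, e⟩, mem_iUnion.2 ⟨false, one_pos.trans_le e⟩])
    choose i hi using v3
    choose k hk using fun x => mem_iUnion.1 (v2.ge (mem_univ x))
    have lc : IsLocallyConstant k := (IsLocallyConstant.iff_eventually_eq k).2 fun x => by
      filter_upwards [(op (v1 _)).mem_nhds (hk x)] with y hy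
      exact congrArg Subtype.val ((Finite.card_le_one_iff_subsingleton.1 (v4 y)).elim
        ⟨_, hk y⟩ ⟨_, hy⟩)
    refine nosep (h ⊥) h' ((lc.comp i).isClopen_fiber true) (fun z hz => ?_) fun z hz => ?_
    · have := hi _ (hk z)
      rwa [show i (k z) = true from hz] at this
    · by_contra n
      have := hi _ (hk z)
      rw [show i (k z) = false from Bool.eq_false_iff.2 n] at this
      exact hz.not_gt this

end Pool.Agent.Results.MP_bf7e1e_gt.Counter
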